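import Pool.Agent.H234.ST.Defs
import Pool.Agent.H234.ST.Path

/-!
# Project ST (helper234), task ST1: a connected set near a diameter is as long as the diameter (helper161)
-/

set_option autoImplicit false
set_option linter.unusedVariables false

open MeasureTheory Set Metric Filter Topology
open scoped ContDiff ENNReal

namespace Pool.Agent.H161.ST

open Pool.Agent.H234.ST

/-- boundary bumping -/
theorem bump {S : Set ℂ} (hS : IsCompact S) (hSc : IsPreconnected S) {x : ℂ} {r : ℝ}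
    (hy : ∃ y ∈ S, r < dist y x) {z : ℂ} (hz : z ∈ S) (hzr : dist z x ≤ r) :
    ∃ w ∈ connectedComponentIn (S ∩ closedBall x r) z, r ≤ dist w x := by
  by_contra hcon
  push Not at hcon
  have hzK : z ∈ S ∩ closedBall x r := ⟨hz, hzr⟩
  have hK : IsCompact (S ∩ closedBall x r) := hS.inter_right isClosed_closedBall
  have : CompactSpace ((S ∩ closedBall x r : Set ℂ)) := isCompact_iff_compactSpace.1 hK
  set z' : (S ∩ closedBall x r : Set ℂ) := ⟨z, hzK⟩ with hz'
  rw [connectedComponentIn_eq_image hzK] at hcon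
  have hopen : IsOpen {w : (S ∩ closedBall x r : Set ℂ) | dist (w : ℂ) x < r} :=
    isOpen_lt (by fun_prop) continuous_const
  have : Nonempty {s : Set (S ∩ closedBall x r : Set ℂ) // IsClopen s ∧ z' ∈ s} :=
    ⟨⟨univ, isClopen_univ, mem_univ _⟩⟩
  obtain ⟨⟨Q, hQ, hzQ⟩, hQU⟩ := exists_subset_nhds_of_isCompact'
    (V := fun s : {s : Set (S ∩ closedBall x r : Set ℂ) // IsClopen s ∧ z' ∈ s} => (s : Set _))
    (U := {w : (S ∩ closedBall x r : Set ℂ) | dist (w : ℂ) x < r})
    (by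
      intro a b
      exact ⟨⟨a.1 ∩ b.1, a.2.1.inter b.2.1, a.2.2, b.2.2⟩, inter_subset_left, inter_subset_right⟩)
    (fun s => s.2.1.1.isCompact) (fun s => s.2.1.1)
    (by
      intro w hw
      rw [← connectedComponent_eq_iInter_isClopen] at hw
      exact hopen.mem_nhds (hcon _ ⟨w, hw, rfl⟩))
  have hQU' : ∀ w ∈ Q, dist (w : ℂ) x < r := fun w hw => hQU hw
  obtain ⟨O, hO, hOQ⟩ := isOpen_induced_iff.1 hQ.2
  have hQc : IsClosed ((↑) '' Q : Set ℂ) := (hQ.1.isCompact.image continuous_subtype_val).isClosed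
  obtain ⟨y, hyS, hyr⟩ := hy
  have hU1 : IsOpen (O ∩ ball x r) := hO.inter isOpen_ball
  have hmem : ∀ s ∈ S, s ∈ O ∩ ball x r → s ∈ ((↑) '' Q : Set ℂ) := by
    rintro s hs ⟨h1, h2⟩
    have hsK : s ∈ S ∩ closedBall x r := ⟨hs, ball_subset_closedBall h2⟩
    refine ⟨⟨s, hsK⟩, ?_, rfl⟩
    rw [← hOQ]
    exact h1
  have hmem2 : ∀ s ∈ ((↑) '' Q : Set ℂ), s ∈ O ∩ ball x r := by
    rintro _ ⟨w, hw, rfl⟩
    refine ⟨?_, hQU' w hw⟩
    rw [← hOQ] at hw
    exact hw
  obtain ⟨s, hs, hs1, hs2⟩ := hSc (O ∩ ball x r) ((↑) '' Q : Set ℂ)ᶜ hU1 hQc.isOpen_compl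
    (by
      intro s hs
      by_cases h : s ∈ ((↑) '' Q : Set ℂ)
      · exact Or.inl (hmem2 s h)
      · exact Or.inr h)
    ⟨z, hz, hmem2 z ⟨z', hzQ, rfl⟩⟩
    ⟨y, hyS, fun h => by
      have := (hmem2 y h).2
      rw [mem_ball] at this
      linarith⟩
  exact hs2 (hmem s hs hs1)

theorem closed_comp {K : Set ℂ} (hK : IsClosed K) {z : ℂ} (hz : z ∈ K) :
    IsClosed (connectedComponentIn K z) := by
  rw [connectedComponentIn_eq_image hz]
  exact hK.isClosedEmbedding_subtypeVal.isClosedMap _ isClosed_connectedComponent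

/-- the final arithmetic -/
theorem arith {θ r m n : ℝ} (hθ : 0 < θ) (hθ1 : θ < 1) (hr : 0 < r) (hn : 0 ≤ n) (hm : 0 ≤ m)
    (h1 : 2 * (1 - (1 - θ) / 2) * r ≤ m + n * (2 * (((1 - θ) / 2) ^ 2 / 3) * r))
    (h2 : n * (((1 - θ) / 2 - ((1 - θ) / 2) ^ 2 / 3) * r) ≤ m) : θ * (2 * r) ≤ m := by
  set δ : ℝ := (1 - θ) / 2 with hδ
  have hδ0 : 0 < δ := by rw [hδ]; linarith
  have hδ1 : δ < 1 / 2 := by rw [hδ]; linarith
  have hθδ : θ = 1 - 2 * δ := by rw [hδ]; ring
  rw [hθδ]
  -- `n δ r (1 - δ/3) ≤ m`, so `n δ r ≤ 6/5 m`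
  have h3 : n * r * δ * (1 - δ / 3) ≤ m := by
    calc n * r * δ * (1 - δ / 3) = n * ((δ - δ ^ 2 / 3) * r) := by ring
      _ ≤ m := h2
  have h4 : n * r * δ ≤ 6 / 5 * m := by
    have h5 : 0 ≤ n * r * δ := by positivity
    nlinarith
  have h5 : 2 * (1 - δ) * r ≤ m + 4 / 5 * m * δ := by
    have h6 : n * (2 * (δ ^ 2 / 3) * r) = (2 / 3) * δ * (n * r * δ) := by ring
    rw [h6] at h1
    nlinarith
  nlinarith

theorem local_bound : S_Local := by
  intro θ hθ hθ1
  set δ : ℝ := (1 - θ) / 2 with hδ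
  have hδ0 : 0 < δ := by rw [hδ]; linarith
  have hδ1 : δ < 1 / 2 := by rw [hδ]; linarith
  set η : ℝ := δ ^ 2 / 3 with hη
  have hη0 : 0 < η := by positivity
  have hηδ : η < δ := by rw [hη]; nlinarith
  refine ⟨η, hη0, ?_⟩
  intro S hS hSc x τ r hr hτ hy hz
  set K : Set ℂ := S ∩ closedBall x r with hKdef
  have hK : IsCompact K := hS.inter_right isClosed_closedBall
  by_cases htop : μH[1] K = ⊤
  · rw [htop]
    exact le_top
  set h : ℝ := (δ - η) * r with hh
  have hh0 : 0 < h := mul_pos (by linarith) hr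
  -- the projection
  set p : ℂ → ℝ := fun w => inner ℝ τ (w - x) with hp
  have hplip : LipschitzWith 1 p := by
    refine LipschitzWith.of_dist_le_mul fun a b => ?_
    rw [Real.dist_eq, NNReal.coe_one, one_mul, dist_eq_norm]
    have e : p a - p b = inner ℝ τ (a - b) := by
      rw [hp]
      simp only
      rw [← inner_sub_right]
      congr 1
      abel
    rw [e]
    calc |inner ℝ τ (a - b)| ≤ ‖τ‖ * ‖a - b‖ := abs_real_inner_le_norm _ _
      _ = ‖a - b‖ := by rw [hτ, one_mul]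
  have hpt : ∀ t : ℝ, p (x + t • τ) = t := by
    intro t
    rw [hp]
    simp only
    rw [add_sub_cancel_left, real_inner_smul_right, real_inner_self_eq_norm_sq, hτ]
    ring
  set T : Set ℝ := Icc (-((1 - δ) * r)) ((1 - δ) * r) with hT
  have hTt : ∀ t ∈ T, |t| ≤ (1 - δ) * r := fun t ht => abs_le.2 ht
  have hTr : ∀ t ∈ T, |t| ≤ r := by
    intro t ht
    refine (hTt t ht).trans ?_
    nlinarith
  have hz' : ∀ t : ℝ, ∃ z : ℂ, t ∈ T → z ∈ S ∧ dist z (x + t • τ) ≤ η * r := by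
    intro t
    by_cases ht : t ∈ T
    · obtain ⟨z, h1, h2⟩ := hz t (hTr t ht)
      exact ⟨z, fun _ => ⟨h1, h2⟩⟩
    · exact ⟨0, fun h => absurd h ht⟩
  choose z hz using hz'
  have hzx : ∀ t ∈ T, dist (z t) x ≤ r - h := by
    intro t ht
    calc dist (z t) x ≤ dist (z t) (x + t • τ) + dist (x + t • τ) x := dist_triangle _ _ _
      _ ≤ η * r + (1 - δ) * r := by
          refine add_le_add (hz t ht).2 ?_
          rw [dist_eq_norm, add_sub_cancel_left, norm_smul, hτ, mul_one]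
          exact hTt t ht
      _ = r - h := by rw [hh]; ring
  have hzK : ∀ t ∈ T, z t ∈ K := fun t ht => ⟨(hz t ht).1, by
    rw [mem_closedBall]
    linarith [hzx t ht]⟩
  have hpz : ∀ t ∈ T, |p (z t) - t| ≤ η * r := by
    intro t ht
    have h1 := hplip.dist_le_mul (z t) (x + t • τ)
    rw [hpt, Real.dist_eq, NNReal.coe_one, one_mul] at h1
    exact h1.trans (hz t ht).2
  -- the components
  set F : Set (Set ℂ) := (fun t => connectedComponentIn K (z t)) '' T with hF
  have hFK : ∀ C ∈ F, C ⊆ K := by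
    rintro _ ⟨t, _, rfl⟩
    exact connectedComponentIn_subset _ _
  have hFc : ∀ C ∈ F, IsClosed C := by
    rintro _ ⟨t, ht, rfl⟩
    exact closed_comp hK.isClosed (hzK t ht)
  have hFh : ∀ C ∈ F, ENNReal.ofReal h ≤ μH[1] C := by
    rintro _ ⟨t, ht, rfl⟩
    obtain ⟨w, hw, hwr⟩ := bump hS hSc hy (hzK t ht).1 (hzK t ht).2
    refine le_trans ?_ (Lib.H_conn isPreconnected_connectedComponentIn hw
      (mem_connectedComponentIn (hzK t ht)))
    refine ENNReal.ofReal_le_ofReal ?_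
    have h1 := dist_triangle w (z t) x
    have h2 := hzx t ht
    linarith
  have hFd : F.PairwiseDisjoint id := by
    rintro _ ⟨t, ht, rfl⟩ _ ⟨t', ht', rfl⟩ hne
    refine Set.disjoint_left.2 fun w hw hw' => hne ?_
    show connectedComponentIn K (z t) = connectedComponentIn K (z t')
    rw [connectedComponentIn_eq hw, connectedComponentIn_eq hw']
  have hFfin : F.Finite := by
    have h1 := Measure.finite_const_le_meas_of_disjoint_iUnion (μH[1] : Measure ℂ)
      (ENNReal.ofReal_pos.2 hh0) (As := fun C : F => (C : Set ℂ))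
      (fun C => (hFc C C.2).measurableSet)
      (fun C C' hne => hFd C.2 C'.2 (fun e => hne (Subtype.ext e)))
      (ne_top_of_le_ne_top htop (measure_mono (iUnion_subset fun C => hFK C C.2)))
    have h2 : {i : F | ENNReal.ofReal h ≤ μH[1] (i : Set ℂ)} = univ :=
      eq_univ_of_forall fun C => hFh C C.2
    rw [h2] at h1
    have h3 : Finite F := Set.finite_univ_iff.1 h1
    exact Set.toFinite F
  -- extreme values
  have hext : ∀ C : Set ℂ, ∃ u v : ℂ, C ∈ F → u ∈ C ∧ v ∈ C ∧ ∀ w ∈ C, p u ≤ p w ∧ p w ≤ p v := by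
    intro C
    by_cases hC : C ∈ F
    · have hCc : IsCompact C := hK.of_isClosed_subset (hFc C hC) (hFK C hC)
      have hCn : C.Nonempty := by
        obtain ⟨t, ht, rfl⟩ := hC
        exact ⟨z t, mem_connectedComponentIn (hzK t ht)⟩
      obtain ⟨u, hu, hmin⟩ := hCc.exists_isMinOn hCn hplip.continuous.continuousOn
      obtain ⟨v, hv, hmax⟩ := hCc.exists_isMaxOn hCn hplip.continuous.continuousOn
      exact ⟨u, v, fun _ => ⟨hu, hv, fun w hw => ⟨hmin hw, hmax hw⟩⟩⟩
    · exact ⟨0, 0, fun h => absurd h hC⟩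
  choose u v huv using hext
  have hcover : T ⊆ ⋃ C ∈ hFfin.toFinset, Icc (p (u C) - η * r) (p (v C) + η * r) := by
    intro t ht
    have hC : connectedComponentIn K (z t) ∈ F := ⟨t, ht, rfl⟩
    have h1 := (huv _ hC).2.2 (z t) (mem_connectedComponentIn (hzK t ht))
    have h2 := abs_le.1 (hpz t ht)
    rw [mem_iUnion₂]
    exact ⟨_, hFfin.mem_toFinset.2 hC, by constructor <;> linarith⟩
  have hone : ∀ C ∈ hFfin.toFinset, volume (Icc (p (u C) - η * r) (p (v C) + η * r)) ≤
      μH[1] C + ENNReal.ofReal (2 * η * r) := by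
    intro C hC
    rw [hFfin.mem_toFinset] at hC
    obtain ⟨h1, h2, h3⟩ := huv C hC
    have hconn : IsPreconnected C := by
      obtain ⟨t, ht, rfl⟩ := hC
      exact isPreconnected_connectedComponentIn
    rw [Real.volume_Icc]
    have e : p (v C) + η * r - (p (u C) - η * r) = (p (v C) - p (u C)) + 2 * η * r := by ring
    rw [e]
    refine ENNReal.ofReal_add_le.trans (add_le_add ?_ le_rfl)
    refine le_trans (ENNReal.ofReal_le_ofReal ?_) (Lib.H_conn hconn h2 h1)
    have h4 := hplip.dist_le_mul (v C) (u C)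
    rw [NNReal.coe_one, one_mul, Real.dist_eq] at h4
    exact (le_abs_self _).trans h4
  have hvolT : ENNReal.ofReal (2 * (1 - δ) * r) ≤
      μH[1] K + hFfin.toFinset.card * ENNReal.ofReal (2 * η * r) := by
    have h1 : volume T = ENNReal.ofReal (2 * (1 - δ) * r) := by
      rw [hT, Real.volume_Icc]
      congr 1
      ring
    rw [← h1]
    calc volume T ≤ volume (⋃ C ∈ hFfin.toFinset, Icc (p (u C) - η * r) (p (v C) + η * r)) :=
          measure_mono hcover
      _ ≤ ∑ C ∈ hFfin.toFinset, volume (Icc (p (u C) - η * r) (p (v C) + η * r)) :=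
          measure_biUnion_finset_le _ _
      _ ≤ ∑ C ∈ hFfin.toFinset, (μH[1] C + ENNReal.ofReal (2 * η * r)) := Finset.sum_le_sum hone
      _ = ∑ C ∈ hFfin.toFinset, μH[1] C + hFfin.toFinset.card * ENNReal.ofReal (2 * η * r) := by
          rw [Finset.sum_add_distrib, Finset.sum_const, nsmul_eq_mul]
      _ ≤ μH[1] K + hFfin.toFinset.card * ENNReal.ofReal (2 * η * r) := by
          refine add_le_add ?_ le_rfl
          rw [← measure_biUnion_finset (f := fun C : Set ℂ => C)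
            (fun C hC C' hC' hne => hFd (hFfin.mem_toFinset.1 hC) (hFfin.mem_toFinset.1 hC') hne)
            (fun C hC => (hFc C (hFfin.mem_toFinset.1 hC)).measurableSet)]
          exact measure_mono (iUnion₂_subset fun C hC => hFK C (hFfin.mem_toFinset.1 hC))
  have hcard : (hFfin.toFinset.card : ℝ≥0∞) * ENNReal.ofReal h ≤ μH[1] K := by
    calc (hFfin.toFinset.card : ℝ≥0∞) * ENNReal.ofReal h
        = ∑ C ∈ hFfin.toFinset, ENNReal.ofReal h := by rw [Finset.sum_const, nsmul_eq_mul]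
      _ ≤ ∑ C ∈ hFfin.toFinset, μH[1] C :=
          Finset.sum_le_sum fun C hC => hFh C (hFfin.mem_toFinset.1 hC)
      _ ≤ μH[1] K := by
          rw [← measure_biUnion_finset (f := fun C : Set ℂ => C)
            (fun C hC C' hC' hne => hFd (hFfin.mem_toFinset.1 hC) (hFfin.mem_toFinset.1 hC') hne)
            (fun C hC => (hFc C (hFfin.mem_toFinset.1 hC)).measurableSet)]
          exact measure_mono (iUnion₂_subset fun C hC => hFK C (hFfin.mem_toFinset.1 hC))
  -- real numbers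
  set m : ℝ := (μH[1] K).toReal with hm
  have hmK : μH[1] K = ENNReal.ofReal m := (ENNReal.ofReal_toReal htop).symm
  have hm0 : 0 ≤ m := ENNReal.toReal_nonneg
  set n : ℝ := (hFfin.toFinset.card : ℝ) with hn
  have hn0 : 0 ≤ n := Nat.cast_nonneg _
  have hnE : (hFfin.toFinset.card : ℝ≥0∞) = ENNReal.ofReal n := by
    rw [hn, ENNReal.ofReal_natCast]
  have hηr : 0 ≤ 2 * η * r := mul_nonneg (mul_nonneg zero_le_two hη0.le) hr.le
  have hnη : 0 ≤ n * (2 * η * r) := mul_nonneg hn0 hηr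
  rw [hmK, hnE, ← ENNReal.ofReal_mul hn0, ← ENNReal.ofReal_add hm0 hnη,
    ENNReal.ofReal_le_ofReal_iff (add_nonneg hm0 hnη)] at hvolT
  rw [hmK, hnE, ← ENNReal.ofReal_mul hn0, ENNReal.ofReal_le_ofReal_iff hm0] at hcard
  rw [hmK]
  exact ENNReal.ofReal_le_ofReal (arith hθ hθ1 hr hn0 hm0 hvolT hcard)

end Pool.Agent.H161.ST
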